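import Pool.Agent.FHQ.StmtsU

/-! Squad FHQ, row DSC: descent. -/

noncomputable section

namespace Pool.Agent.FHQ.H8

open Pool.Agent.FHQ

theorem iter_inj {L : Type} [Field L] (f : L →+* L) (n : ℕ) : Function.Injective (⇑f)^[n] :=
  f.injective.iterate n

theorem iter_mul {L : Type} [Field L] (f : L →+* L) (n : ℕ) (x y : L) :
    (⇑f)^[n] (x * y) = (⇑f)^[n] x * (⇑f)^[n] y := by
  induction n generalizing x y with
  | zero => rfl
  | succ n ih =>
    rw [Function.iterate_succ_apply, Function.iterate_succ_apply, Function.iterate_succ_apply,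
      map_mul, ih]

theorem iter_pow {L : Type} [Field L] (f : L →+* L) (n j : ℕ) (x : L) :
    (⇑f)^[n] (x ^ j) = ((⇑f)^[n] x) ^ j := by
  induction n generalizing x with
  | zero => rfl
  | succ n ih =>
    rw [Function.iterate_succ_apply, Function.iterate_succ_apply, map_pow, ih]

theorem dsc : DscStmt := by
  classical
  intro L _ f m α a hm hα hj ha
  let S : Subfield L := Subfield.closure (Set.range fun i : ℕ => (⇑f)^[i] α)
  have hS : ∀ i : ℕ, (⇑f)^[i] α ∈ S := fun i => Subfield.subset_closure ⟨i, rfl⟩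
  let v : Fin m → S := fun i => ⟨(⇑f)^[(i : ℕ)] α, hS i⟩
  have hv : Function.Injective v := by
    have key : ∀ i j : ℕ, i < j → j < m → (⇑f)^[i] α ≠ (⇑f)^[j] α := by
      intro i j hij hjm h
      have h1 : (⇑f)^[j] α = (⇑f)^[i] ((⇑f)^[j - i] α) := by
        rw [← Function.iterate_add_apply]
        congr 2
        omega
      rw [h1] at h
      have h2 := iter_inj f i h
      exact hj (j - i) (by omega) (by omega) h2.symm
    intro x y hxy
    have h1 : (⇑f)^[(x : ℕ)] α = (⇑f)^[(y : ℕ)] α := congrArg Subtype.val hxy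
    apply Fin.ext
    rcases lt_trichotomy (x : ℕ) y with h | h | h
    · exact absurd h1 (key _ _ h y.2)
    · exact h
    · exact absurd h1.symm (key _ _ h x.2)
  let W : Matrix (Fin m) (Fin m) S := (Matrix.vandermonde v).transpose
  have hdet : W.det ≠ 0 := by
    rw [Matrix.det_transpose]
    exact Matrix.det_vandermonde_ne_zero_iff.2 hv
  have hinv : W⁻¹ * W = 1 := Matrix.nonsing_inv_mul W (isUnit_iff_ne_zero.2 hdet)
  let i0 : Fin m := ⟨0, hm⟩
  refine ⟨fun j => ((W⁻¹ i0 j : S) : L), fun j => (W⁻¹ i0 j : S).2, ?_⟩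
  have h1 : ∀ j : Fin m, ∑ i ∈ Finset.range m, (⇑f)^[i] (α ^ (j : ℕ) * a) =
      ∑ i : Fin m, ((W j i : S) : L) * (⇑f)^[(i : ℕ)] a := by
    intro j
    rw [Finset.sum_range]
    refine Finset.sum_congr rfl fun i _ => ?_
    rw [iter_mul, iter_pow]
    rfl
  have h2 : ∀ j : Fin m, ((W⁻¹ i0 j : S) : L) *
      ∑ i ∈ Finset.range m, (⇑f)^[i] (α ^ (j : ℕ) * a) =
      ∑ i : Fin m, (((W⁻¹ i0 j * W j i : S)) : L) * (⇑f)^[(i : ℕ)] a := by
    intro j
    rw [h1, Finset.mul_sum]
    refine Finset.sum_congr rfl fun i _ => ?_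
    push_cast
    ring
  rw [Finset.sum_congr rfl (fun j _ => h2 j), Finset.sum_comm]
  have h3 : ∀ i : Fin m, ∑ j : Fin m, (((W⁻¹ i0 j * W j i : S)) : L) * (⇑f)^[(i : ℕ)] a =
      (if i0 = i then 1 else 0) * (⇑f)^[(i : ℕ)] a := by
    intro i
    rw [← Finset.sum_mul]
    congr 1
    have h4 : (W⁻¹ * W) i0 i = (1 : Matrix (Fin m) (Fin m) S) i0 i := by rw [hinv]
    rw [Matrix.mul_apply, Matrix.one_apply] at h4
    have h5 : ((∑ j : Fin m, W⁻¹ i0 j * W j i : S) : L) = ((if i0 = i then 1 else 0 : S) : L) :=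
      congrArg (fun s : S => (s : L)) h4
    rw [AddSubmonoidClass.coe_finsetSum] at h5
    rw [h5]
    split_ifs
    · rfl
    · rfl
  rw [Finset.sum_congr rfl (fun i _ => h3 i), Finset.sum_eq_single i0]
  · rw [if_pos rfl, one_mul]
    rfl
  · intro i _ hi
    rw [if_neg (fun h => hi h.symm), zero_mul]
  · intro h
    exact absurd (Finset.mem_univ _) h

end Pool.Agent.FHQ.H8
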