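import Pool.Agent.FHQ.StmtsW

/-! Squad FHQ, row ORD: independence of `p`-th powers. -/

noncomputable section

namespace Pool.Agent.FHQ.H8

open Pool.Agent.FHQ

theorem ord_aux (k : Type) [Field k] (p : ℕ) [Fact p.Prime] [CharP k p]
    (S : Submodule k (PowerSeries k))
    (hS : ∀ r ∈ S, (PowerSeries.X : PowerSeries k) ^ p ∣ r → r = 0) :
    ∀ (M : ℕ) (ι : Type) [Fintype ι] (u r : ι → PowerSeries k), Fintype.card ι = M →
      LinearIndependent k u → (∀ i, r i ∈ S) → ∑ i, r i * u i ^ p = 0 → ∀ i, r i = 0 := by
  classical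
  have : CharP (PowerSeries k) p :=
    charP_of_injective_algebraMap (algebraMap k (PowerSeries k)).injective p
  intro M
  induction M with
  | zero =>
    intro ι _ u r hc _ _ _ i
    exact (Fintype.card_eq_zero_iff.1 hc).elim i
  | succ M ih =>
    intro ι _ u r hc hu hr hsum
    have hne : Nonempty ι := Fintype.card_pos_iff.1 (by omega)
    -- the smallest order
    have hu0 : ∀ i, u i ≠ 0 := fun i => hu.ne_zero i
    have hex : ∀ i, ∃ n, PowerSeries.coeff n (u i) ≠ 0 := fun i => by
      by_contra hcon
      rw [not_exists] at hcon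
      exact hu0 i (PowerSeries.ext fun n => not_not.1 (hcon n))
    let o : ι → ℕ := fun i => Nat.find (hex i)
    obtain ⟨i0, -, hi0⟩ := Finset.exists_min_image Finset.univ o Finset.univ_nonempty
    have hlow : ∀ i n, n < o i0 → PowerSeries.coeff n (u i) = 0 := by
      intro i n hn
      by_contra hcon
      have h1 : o i ≤ n := Nat.find_min' (hex i) hcon
      have h2 := hi0 i (Finset.mem_univ i)
      omega
    have hlead : PowerSeries.coeff (o i0) (u i0) ≠ 0 := Nat.find_spec (hex i0)
    let c : ι → k := fun i => PowerSeries.coeff (o i0) (u i) / PowerSeries.coeff (o i0) (u i0)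
    let ι' := {i : ι // i ≠ i0}
    let u' : ι' → PowerSeries k := fun i => u i - c i • u i0
    have hX : ∀ i : ι', (PowerSeries.X : PowerSeries k) ^ (o i0 + 1) ∣ u' i := by
      intro i
      rw [PowerSeries.X_pow_dvd_iff]
      intro n hn
      change PowerSeries.coeff n (u i - c i • u i0) = 0
      rw [map_sub, map_smul, smul_eq_mul]
      rcases Nat.lt_succ_iff_lt_or_eq.1 hn with h | h
      · rw [hlow _ n h, hlow _ n h]
        ring
      · rw [h]
        change _ - PowerSeries.coeff (o i0) (u i) / PowerSeries.coeff (o i0) (u i0) * _ = 0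
        field_simp
        ring
    have hind : LinearIndependent k u' := by
      rw [Fintype.linearIndependent_iff] at hu ⊢
      intro g hg
      let G : ι → k := fun i => if h : i ≠ i0 then g ⟨i, h⟩ else -∑ j : ι', g j * c j
      have h1 : ∑ i, G i • u i = 0 := by
        rw [← Fintype.sum_subtype_add_sum_subtype (fun i => i ≠ i0)]
        have h2 : ∑ i : {i : ι // ¬ i ≠ i0}, G i • u i = (-∑ j : ι', g j * c j) • u i0 := by
          have huniq : ∀ i : {i : ι // ¬ i ≠ i0}, i = ⟨i0, fun h => h rfl⟩ := fun i =>
            Subtype.ext (not_not.1 i.2)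
          rw [Fintype.sum_eq_single (⟨i0, fun h => h rfl⟩ : {i : ι // ¬ i ≠ i0})]
          · congr 1
            exact dif_neg (fun h => h rfl)
          · intro i hi
            exact absurd (huniq i) hi
        have h3 : ∑ i : {i : ι // i ≠ i0}, G i • u i = ∑ i : ι', g i • u i := by
          refine Finset.sum_congr rfl fun i _ => ?_
          congr 1
          exact dif_pos i.2
        rw [h2, h3]
        have h4 : ∑ i : ι', g i • u' i = ∑ i : ι', g i • u i - (∑ j : ι', g j * c j) • u i0 := by
          rw [Finset.sum_smul, ← Finset.sum_sub_distrib]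
          refine Finset.sum_congr rfl fun i _ => ?_
          change g i • (u i - c i • u i0) = _
          rw [smul_sub, smul_smul]
        rw [h4] at hg
        rw [neg_smul, ← sub_eq_add_neg]
        exact hg
      have h5 := hu G h1
      intro i
      have h6 := h5 i
      have h7 : G i = g i := dif_pos i.2
      rw [← h7, h6]
    have hpow : ∀ i : ι', u i ^ p = u' i ^ p + c i ^ p • u i0 ^ p := by
      intro i
      have h1 : u i = u' i + c i • u i0 := by
        change u i = (u i - c i • u i0) + c i • u i0
        ring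
      rw [h1, add_pow_char, smul_pow]
    let r' : PowerSeries k := r i0 + ∑ i : ι', c i ^ p • r i
    have hr' : r' ∈ S := S.add_mem (hr i0) (S.sum_mem fun i _ => S.smul_mem _ (hr i))
    have hsplit : ∑ i : ι', r i * u' i ^ p + r' * u i0 ^ p = 0 := by
      rw [← Fintype.sum_subtype_add_sum_subtype (fun i => i ≠ i0)] at hsum
      have h2 : ∑ i : {i : ι // ¬ i ≠ i0}, r i * u i ^ p = r i0 * u i0 ^ p := by
        have huniq : ∀ i : {i : ι // ¬ i ≠ i0}, i = ⟨i0, fun h => h rfl⟩ := fun i =>
          Subtype.ext (not_not.1 i.2)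
        rw [Fintype.sum_eq_single (⟨i0, fun h => h rfl⟩ : {i : ι // ¬ i ≠ i0})]
        intro i hi
        exact absurd (huniq i) hi
      rw [h2] at hsum
      have h3 : ∑ i : {i : ι // i ≠ i0}, r i * u i ^ p =
          ∑ i : ι', r i * u' i ^ p + (∑ i : ι', c i ^ p • r i) * u i0 ^ p := by
        rw [Finset.sum_mul, ← Finset.sum_add_distrib]
        refine Finset.sum_congr rfl fun i _ => ?_
        rw [hpow i, mul_add, smul_mul_assoc, mul_smul_comm]
      rw [h3] at hsum
      change _ + (r i0 + ∑ i : ι', c i ^ p • r i) * u i0 ^ p = 0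
      rw [add_mul, ← hsum]
      ring
    have hr0 : r' = 0 := by
      apply hS r' hr'
      obtain ⟨w, hw⟩ : (PowerSeries.X : PowerSeries k) ^ (o i0) ∣ u i0 :=
        PowerSeries.X_pow_dvd_iff.2 fun n hn => hlow i0 n hn
      have hwc : PowerSeries.constantCoeff w ≠ 0 := by
        intro h
        apply hlead
        rw [hw, PowerSeries.coeff_X_pow_mul']
        simp only [le_refl, if_true, Nat.sub_self, PowerSeries.coeff_zero_eq_constantCoeff]
        exact h
      have hwu : IsUnit w := PowerSeries.isUnit_iff_constantCoeff.2 (isUnit_iff_ne_zero.2 hwc)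
      have h1 : (PowerSeries.X : PowerSeries k) ^ (p * (o i0 + 1)) ∣
          ∑ i : ι', r i * u' i ^ p := by
        refine Finset.dvd_sum fun i _ => Dvd.dvd.mul_left ?_ _
        rw [mul_comm, pow_mul]
        exact pow_dvd_pow_of_dvd (hX i) p
      have h2 : (PowerSeries.X : PowerSeries k) ^ (p * (o i0 + 1)) ∣ r' * u i0 ^ p := by
        have h3 : r' * u i0 ^ p = -∑ i : ι', r i * u' i ^ p := by
          linear_combination hsplit
        rw [h3]
        exact (dvd_neg).2 h1
      have h4 : r' * u i0 ^ p = (PowerSeries.X : PowerSeries k) ^ (p * o i0) * (r' * w ^ p) := by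
        conv_lhs => rw [hw]
        rw [mul_pow, ← pow_mul, mul_comm (o i0) p]
        ring
      have h5 : (PowerSeries.X : PowerSeries k) ^ (p * (o i0 + 1)) =
          (PowerSeries.X : PowerSeries k) ^ (p * o i0) * PowerSeries.X ^ p := by
        rw [← pow_add]
        congr 1
      rw [h4, h5] at h2
      have h6 : (PowerSeries.X : PowerSeries k) ^ p ∣ r' * w ^ p :=
        (mul_dvd_mul_iff_left (pow_ne_zero _ PowerSeries.X_ne_zero)).1 h2
      exact ((hwu.pow p).dvd_mul_right).1 h6
    rw [hr0, zero_mul, add_zero] at hsplit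
    have hcard : Fintype.card ι' = M := by
      have h1 : Fintype.card ι' = Fintype.card ι - 1 := by
        rw [Fintype.card_subtype_compl, Fintype.card_subtype_eq]
      omega
    have hall := ih ι' u' (fun i => r i) hcard hind (fun i => hr i) hsplit
    intro i
    by_cases hi : i = i0
    · rw [hi]
      have h1 : r' = r i0 := by
        change r i0 + ∑ i : ι', c i ^ p • r i = r i0
        rw [Finset.sum_eq_zero, add_zero]
        intro i _
        rw [hall i, smul_zero]
      rw [← h1, hr0]
    · exact hall ⟨i, hi⟩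

theorem ord_ : OrdStmt := by
  intro k _ p _ _ S hS M u r hu hr hsum
  exact ord_aux k p S hS M (Fin M) u r (Fintype.card_fin M) hu hr hsum

end Pool.Agent.FHQ.H8
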