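import Pool.Agent.Helper8_FHQ.ALM
import Pool.Agent.Helper52_FHQ.PIX

/-! Squad FHQ, row PII: identities which are partial isomorphisms. -/

open scoped BigOperators

noncomputable section

namespace Pool.Agent.FHQ.H8

open Polynomial Pool.Agent.FHQ Pool.Agent.FHQ.H52

section gen

variable {L : Type} [Field L]

/-- the polynomial whose roots are the elements of an orbit -/
def orbPoly (f : L →+* L) (m : ℕ) (α : L) : L[X] :=
  ∏ j ∈ Finset.range m, (X - C ((⇑f)^[j] α))

theorem orbPoly_ne_zero (f : L →+* L) (m : ℕ) (α : L) : orbPoly f m α ≠ 0 := by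
  unfold orbPoly
  rw [Finset.prod_ne_zero_iff]
  intro j _
  exact X_sub_C_ne_zero _

theorem orbPoly_eval (f : L →+* L) {m : ℕ} (hm : 0 < m) (α : L) : (orbPoly f m α).eval α = 0 := by
  unfold orbPoly
  rw [eval_prod]
  refine Finset.prod_eq_zero (Finset.mem_range.2 hm) ?_
  simp

theorem orbPoly_map (f : L →+* L) {m : ℕ} (hm : 0 < m) {α : L} (h : (⇑f)^[m] α = α) :
    (orbPoly f m α).map f = orbPoly f m α := by
  obtain ⟨n, rfl⟩ : ∃ n, m = n + 1 := ⟨m - 1, by omega⟩
  unfold orbPoly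
  rw [Polynomial.map_prod]
  have h1 : ∀ j ∈ Finset.range (n + 1), (X - C ((⇑f)^[j] α)).map f = X - C ((⇑f)^[j + 1] α) := by
    intro j _
    rw [Polynomial.map_sub, Polynomial.map_X, Polynomial.map_C, Function.iterate_succ_apply']
  rw [Finset.prod_congr rfl h1, Finset.prod_range_succ, h,
    Finset.prod_range_succ' (fun j => X - C ((⇑f)^[j] α))]
  rfl

theorem orbPoly_coeff (f : L →+* L) {m : ℕ} (hm : 0 < m) {α : L} (h : (⇑f)^[m] α = α) (i : ℕ) :
    f ((orbPoly f m α).coeff i) = (orbPoly f m α).coeff i := by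
  rw [← coeff_map, orbPoly_map f hm h]

theorem mem_acl_of_poly {S : Subfield L} {a : L} (P : L[X]) (hP : P ≠ 0) (hc : ∀ i, P.coeff i ∈ S)
    (h : P.eval a = 0) : a ∈ acl S := by
  rw [mem_acl]
  have h1 : P ∈ Polynomial.lifts (algebraMap S L) := by
    rw [Polynomial.lifts_iff_coeff_lifts]
    intro i
    exact ⟨⟨P.coeff i, hc i⟩, rfl⟩
  obtain ⟨Q, hQ⟩ := (Polynomial.mem_lifts P).1 h1
  refine ⟨Q, ?_, ?_⟩
  · rintro rfl
    apply hP
    rw [← hQ, Polynomial.map_zero]
  · rw [aeval_def, ← eval_map, hQ, h]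

end gen

theorem pii : PiiStmt := by
  intro p _ U _ B hB hBf
  choose α hα using fun m : ℕ => alm p U (m + 1) (Nat.succ_pos m)
  obtain ⟨B0, hB0⟩ : ∃ B0 : Set (UF p U), B0 = Set.range
    (fun x : ℕ × ℕ => (orbPoly (Ph p U) (x.1 + 1) (α x.1)).coeff x.2) := ⟨_, rfl⟩
  have hB0c : B0.Countable := by
    rw [hB0]
    exact Set.countable_range _
  have hfix : ∀ b ∈ B ∪ B0, Ph p U b = b := by
    rintro b (hb | hb)
    · exact hBf b hb
    · rw [hB0] at hb
      obtain ⟨x, rfl⟩ := hb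
      exact orbPoly_coeff (Ph p U) (Nat.succ_pos _) (hα x.1).1 x.2
  obtain ⟨S, hS⟩ : ∃ S : Subfield (UF p U), S = Subfield.closure (B ∪ B0) := ⟨_, rfl⟩
  have hSc : Countable S := by
    rw [hS]
    exact closure_countable (hB.union hB0c)
  have hSf : ∀ a ∈ S, Ph p U a = a := by
    have h1 : S ≤ fixs (Ph p U) := by
      rw [hS, Subfield.closure_le]
      intro b hb
      exact hfix b hb
    intro a ha
    exact h1 ha
  have hsub : B ∪ B0 ⊆ (S : Set (UF p U)) := by
    rw [hS]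
    exact Subfield.subset_closure
  refine ⟨acl S, ?_, ?_⟩
  · intro b hb
    exact le_acl S (hsub (Or.inl hb))
  · refine ⟨acl_countable hSc, fun a ha => acl_closed ha, fun a ha => acl_closed ha, ?_, ?_, ?_⟩
    · intro a ha
      exact acl_per (Ph p U) (fun b hb => ⟨1, Nat.one_pos, hSf b hb⟩) ha
    · intro a
      refine ⟨map_acl (Ph p U) (fun b hb => by rw [hSf b hb]; exact hb) a.2, rfl⟩
    · intro m hm
      obtain ⟨n, rfl⟩ : ∃ n, m = n + 1 := ⟨m - 1, by omega⟩
      refine ⟨α n, ?_, (hα n).1, (hα n).2⟩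
      refine mem_acl_of_poly (orbPoly (Ph p U) (n + 1) (α n)) (orbPoly_ne_zero _ _ _) ?_
        (orbPoly_eval _ hm _)
      intro i
      apply hsub
      right
      rw [hB0]
      exact ⟨(n, i), rfl⟩

end Pool.Agent.FHQ.H8
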