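import Pool.Agent.FHQ.StmtsU

/-! Squad FHQ, row SAT: the ultraproduct is countably saturated. -/

noncomputable section

namespace Pool.Agent.FHQ.H8

open Pool.Agent.FHQ

theorem sat : SatStmt := by
  classical
  intro U hU Z _ C h
  let P : ∀ i : ℕ, ℕ → Prop := fun i k => ∃ z : Z i, ∀ j ≤ k, C j i z
  let z : ∀ i, Z i := fun i =>
    if h : P i (Nat.findGreatest (P i) i) then h.choose else Classical.arbitrary (Z i)
  refine ⟨z, fun j => ?_⟩
  refine ((hU j).and (h j)).mono ?_
  rintro i ⟨h1, h2⟩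
  have h3 : P i (Nat.findGreatest (P i) i) := Nat.findGreatest_spec h1 h2
  have h4 : j ≤ Nat.findGreatest (P i) i := Nat.le_findGreatest h1 h2
  have h5 : z i = h3.choose := dif_pos h3
  rw [h5]
  exact h3.choose_spec j h4

end Pool.Agent.FHQ.H8
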