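import Pool.Agent.FHQ.StmtsU

/-! Squad FHQ, row ALM: elements with orbits of every length. -/

noncomputable section

namespace Pool.Agent.FHQ.H8

open Pool.Agent.FHQ

/-- an element of the algebraic closure with orbit of length `m` -/
theorem exists_orbit (q : ℕ) [Fact q.Prime] (m : ℕ) (hm : 0 < m) :
    ∃ α : AlgebraicClosure (ZMod q), α ^ (q ^ m) = α ∧
      ∀ j : ℕ, 0 < j → j < m → α ^ (q ^ j) ≠ α := by
  classical
  have hq : q.Prime := Fact.out
  let K := GaloisField q m
  let φ : K →ₐ[ZMod q] AlgebraicClosure (ZMod q) := IsAlgClosed.lift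
  have := Fintype.ofFinite K
  have hcard : Fintype.card K = q ^ m := by
    rw [← Nat.card_eq_fintype_card]
    exact GaloisField.card q m hm.ne'
  obtain ⟨g, hg⟩ := IsCyclic.exists_generator (α := Kˣ)
  have hord : orderOf g = q ^ m - 1 := by
    rw [orderOf_eq_card_of_forall_mem_zpowers hg, Nat.card_eq_fintype_card, Fintype.card_units,
      hcard]
  refine ⟨φ (g : K), ?_, ?_⟩
  · rw [← map_pow, ← hcard, FiniteField.pow_card]
  · intro j hj hjm h
    rw [← map_pow] at h
    have h1 : (g : K) ^ (q ^ j) = g := φ.toRingHom.injective h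
    have hpos : 0 < q ^ j := pow_pos hq.pos j
    have h2 : g ^ (q ^ j - 1) = 1 := by
      have h3 : g ^ (q ^ j - 1) * g = g := by
        rw [← pow_succ, Nat.sub_add_cancel hpos]
        exact Units.ext (by rw [Units.val_pow_eq_pow_val]; exact h1)
      exact mul_eq_right.1 h3
    have h4 : q ^ m - 1 ∣ q ^ j - 1 := by
      rw [← hord]
      exact orderOf_dvd_of_pow_eq_one h2
    have h5 : q ^ j < q ^ m := Nat.pow_lt_pow_right hq.one_lt hjm
    have h6 : 1 < q ^ j := Nat.one_lt_pow hj.ne' hq.one_lt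
    have h7 := Nat.le_of_dvd (by omega) h4
    omega

theorem Ph_mk (p : ℕ → ℕ) [∀ i, Fact (p i).Prime] (U : Ultrafilter ℕ)
    (f : ∀ i, AlgebraicClosure (ZMod (p i))) :
    Ph p U (Ideal.Quotient.mk (UJ p U) f) = Ideal.Quotient.mk (UJ p U) (fun i => f i ^ p i) :=
  rfl

theorem Ph_iter (p : ℕ → ℕ) [∀ i, Fact (p i).Prime] (U : Ultrafilter ℕ)
    (f : ∀ i, AlgebraicClosure (ZMod (p i))) (n : ℕ) :
    (⇑(Ph p U))^[n] (Ideal.Quotient.mk (UJ p U) f) =
      Ideal.Quotient.mk (UJ p U) (fun i => f i ^ (p i) ^ n) := by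
  induction n with
  | zero =>
    simp only [Function.iterate_zero, id_eq, pow_zero, pow_one]
  | succ n ih =>
    rw [Function.iterate_succ_apply', ih, Ph_mk]
    congr 1
    funext i
    rw [← pow_mul, ← pow_succ]

theorem mk_eq_iff (p : ℕ → ℕ) [∀ i, Fact (p i).Prime] (U : Ultrafilter ℕ)
    (f g : ∀ i, AlgebraicClosure (ZMod (p i))) :
    Ideal.Quotient.mk (UJ p U) f = Ideal.Quotient.mk (UJ p U) g ↔
      ∀ᶠ i in (U : Filter ℕ), f i = g i := by
  rw [Ideal.Quotient.eq, mem_UJ]
  constructor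
  · intro h
    exact h.mono fun i hi => sub_eq_zero.1 hi
  · intro h
    exact h.mono fun i hi => sub_eq_zero.2 hi

theorem alm : AlmStmt := by
  intro p _ U m hm
  choose α h1 h2 using fun i => exists_orbit (p i) m hm
  refine ⟨Ideal.Quotient.mk (UJ p U) α, ?_, ?_⟩
  · rw [Ph_iter, mk_eq_iff]
    exact Filter.Eventually.of_forall h1
  · intro j hj hjm h
    rw [Ph_iter, mk_eq_iff] at h
    obtain ⟨i, hi⟩ := h.exists
    exact h2 i j hj hjm hi

end Pool.Agent.FHQ.H8
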